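import Pool.Agent.Lib.MP_6ff8d9_an_h22.Rows
import Pool.Agent.Lib.MP_6ff8d9_an_h20.Est

/-!
# Rows TANG and DEST of MP_6ff8d9 RATIONAL
-/

open Metric Filter Topology MvPolynomial
open scoped ComplexConjugate

namespace Pool.Agent.Lib.MP_6ff8d9_an.H20R

open Pool.Agent.Lib.MP_6ff8d9_an Pool.Agent.Lib.MP_6ff8d9_an.Hom
open Pool.Agent.Lib.MP_6ff8d9_an.Hom.M2 Pool.Agent.Lib.MP_6ff8d9_an.Hom.H20
open Pool.Agent.Lib.MP_6ff8d9_an.H22

noncomputable section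

/-- the defect of a small perturbation -/
lemma defect_pert (C : ℝ) (hC : 0 ≤ C) (a b u v c x y : ℂ) (ha : ‖a‖ ≤ C) (hb : ‖b‖ ≤ C)
    (hv : ‖v‖ ≤ C) (hc : ‖c‖ ≤ 1) (hx : ‖x - a - c * u‖ ≤ C * ‖c‖ ^ 2)
    (hy : ‖y - b - c * v‖ ≤ C * ‖c‖ ^ 2) (hxy : ‖x‖ ≤ ‖y‖) :
    0 ≤ ‖b‖ ^ 2 - ‖a‖ ^ 2 + 2 * (c * (conj b * v - conj a * u)).re + 8 * C ^ 2 * ‖c‖ ^ 2 := by
  set e := x - a - c * u with he
  set f := y - b - c * v with hf
  have hx1 : x = a + (c * u + e) := by rw [he]; ring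
  have hy1 : y = b + (c * v + f) := by rw [hf]; ring
  have n1 : ‖x‖ ^ 2 = ‖a‖ ^ 2 + 2 * (conj a * (c * u + e)).re + ‖c * u + e‖ ^ 2 := by
    rw [hx1, ← Complex.normSq_eq_norm_sq, Complex.normSq_add, ← Complex.normSq_eq_norm_sq,
      ← Complex.normSq_eq_norm_sq]
    have : (a * conj (c * u + e)).re = (conj a * (c * u + e)).re := by
      rw [← Complex.conj_re (a * conj (c * u + e)), map_mul, Complex.conj_conj]
    rw [this]
    ring
  have n2 : ‖y‖ ^ 2 = ‖b‖ ^ 2 + 2 * (conj b * (c * v + f)).re + ‖c * v + f‖ ^ 2 := by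
    rw [hy1, ← Complex.normSq_eq_norm_sq, Complex.normSq_add, ← Complex.normSq_eq_norm_sq,
      ← Complex.normSq_eq_norm_sq]
    have : (b * conj (c * v + f)).re = (conj b * (c * v + f)).re := by
      rw [← Complex.conj_re (b * conj (c * v + f)), map_mul, Complex.conj_conj]
    rw [this]
    ring
  have h1 : ‖x‖ ^ 2 ≤ ‖y‖ ^ 2 := pow_le_pow_left₀ (norm_nonneg _) hxy 2
  have h2 : (conj a * (c * u + e)).re = (c * (conj a * u)).re + (conj a * e).re := by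
    rw [← Complex.add_re]; congr 1; ring
  have h3 : (conj b * (c * v + f)).re = (c * (conj b * v)).re + (conj b * f).re := by
    rw [← Complex.add_re]; congr 1; ring
  have h4 : -(C * (C * ‖c‖ ^ 2)) ≤ (conj a * e).re := by
    have : |(conj a * e).re| ≤ C * (C * ‖c‖ ^ 2) := by
      refine (Complex.abs_re_le_norm _).trans ?_
      rw [norm_mul, RCLike.norm_conj]
      exact mul_le_mul ha hx (norm_nonneg _) hC
    linarith [(abs_le.1 this).1]
  have h5 : (conj b * f).re ≤ C * (C * ‖c‖ ^ 2) := by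
    have : |(conj b * f).re| ≤ C * (C * ‖c‖ ^ 2) := by
      refine (Complex.abs_re_le_norm _).trans ?_
      rw [norm_mul, RCLike.norm_conj]
      exact mul_le_mul hb hy (norm_nonneg _) hC
    exact (abs_le.1 this).2
  have h6 : ‖c * v + f‖ ≤ 2 * C * ‖c‖ := by
    refine (norm_add_le _ _).trans ?_
    rw [norm_mul]
    have e1 : ‖c‖ * ‖v‖ ≤ ‖c‖ * C := mul_le_mul_of_nonneg_left hv (norm_nonneg _)
    have e2 : C * ‖c‖ ^ 2 ≤ C * ‖c‖ := by
      refine mul_le_mul_of_nonneg_left ?_ hC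
      nlinarith [norm_nonneg c]
    linarith
  have h7 : ‖c * v + f‖ ^ 2 ≤ 4 * C ^ 2 * ‖c‖ ^ 2 := by
    have := pow_le_pow_left₀ (norm_nonneg _) h6 2
    calc ‖c * v + f‖ ^ 2 ≤ (2 * C * ‖c‖) ^ 2 := this
      _ = 4 * C ^ 2 * ‖c‖ ^ 2 := by ring
  have h8 : 0 ≤ ‖c * u + e‖ ^ 2 := by positivity
  have h9 : (c * (conj b * v - conj a * u)).re = (c * (conj b * v)).re - (c * (conj a * u)).re := by
    rw [← Complex.sub_re]; congr 1; ring
  rw [h9]
  rw [n1, n2, h2, h3] at h1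
  nlinarith

/-- the tangential estimate, numerically -/
lemma tang_num (C : ℝ) (hC : 0 ≤ C) (a b u v : ℂ) (ha : ‖a‖ ≤ C) (hb : ‖b‖ ≤ C)
    (hu : ‖u‖ ≤ C) (hv : ‖v‖ ≤ C) (hab : ‖a‖ ≤ ‖b‖)
    (h : ∀ c : ℂ, ‖c‖ ≤ 1 → ∃ x y : ℂ, ‖x - a - c * u‖ ≤ C * ‖c‖ ^ 2 ∧
      ‖y - b - c * v‖ ≤ C * ‖c‖ ^ 2 ∧ ‖x‖ ≤ ‖y‖) :
    ‖b‖ * ‖b * u - a * v‖ ≤ (C * C + C * ((1 + C) ^ 2 + 4 * C ^ 2)) *
      √(‖b‖ ^ 2 - ‖a‖ ^ 2) := by
  set A := ‖b‖ ^ 2 - ‖a‖ ^ 2 with hA
  have hA0 : 0 ≤ A := by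
    have := pow_le_pow_left₀ (norm_nonneg _) hab 2
    linarith
  have hAC : A ≤ C ^ 2 := by
    have := pow_le_pow_left₀ (norm_nonneg _) hb 2
    nlinarith [norm_nonneg a]
  set T := conj b * v - conj a * u with hT
  set K := (1 + C) ^ 2 + 4 * C ^ 2 with hK
  have hK0 : 0 < K := by positivity
  have key : ∀ ρ : ℝ, 0 < ρ → ρ ≤ 1 → A ≤ ρ ^ 2 * (1 + C) ^ 2 → ‖T‖ ≤ K * ρ := by
    intro ρ hρ hρ1 hAρ
    obtain ⟨c, hc, hcT⟩ : ∃ c : ℂ, ‖c‖ = ρ ∧ (c * T).re = -(ρ * ‖T‖) := by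
      by_cases hT0 : T = 0
      · refine ⟨(ρ : ℂ), by rw [Complex.norm_real, Real.norm_of_nonneg hρ.le], ?_⟩
        rw [hT0]; simp
      · have hn : ‖T‖ ≠ 0 := norm_ne_zero_iff.2 hT0
        refine ⟨((-(ρ / ‖T‖) : ℝ) : ℂ) * conj T, ?_, ?_⟩
        · rw [norm_mul, Complex.norm_real, norm_neg, RCLike.norm_conj, norm_div, norm_norm,
            Real.norm_of_nonneg hρ.le, div_mul_cancel₀ _ hn]
        · rw [mul_assoc, mul_comm (conj T) T, Complex.mul_conj, Complex.normSq_eq_norm_sq,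
            ← Complex.ofReal_mul, Complex.ofReal_re]
          field_simp
    obtain ⟨x, y, hx, hy, hxy⟩ := h c (by rw [hc]; exact hρ1)
    have h1 := defect_pert C hC a b u v c x y ha hb hv (by rw [hc]; exact hρ1) hx hy hxy
    rw [← hT, ← hA, hcT, hc] at h1
    have h2 : 2 * ρ * ‖T‖ ≤ 2 * ρ * (K * ρ) := by
      rw [hK]
      nlinarith [mul_nonneg (sq_nonneg ρ) (sq_nonneg (1 + C))]
    exact le_of_mul_le_mul_left h2 (by positivity)
  have hTA : ‖T‖ ≤ K * √A := by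
    rcases hA0.eq_or_lt with h0 | h0
    · rw [← h0, Real.sqrt_zero, mul_zero]
      by_contra hcon
      push Not at hcon
      have h1 := key (min 1 (‖T‖ / (2 * K))) (by positivity) (min_le_left _ _)
        (by rw [← h0]; positivity)
      have h2 : K * min 1 (‖T‖ / (2 * K)) ≤ K * (‖T‖ / (2 * K)) :=
        mul_le_mul_of_nonneg_left (min_le_right _ _) hK0.le
      have h3 : K * (‖T‖ / (2 * K)) = ‖T‖ / 2 := by field_simp
      linarith
    · have h1C : 0 < 1 + C := by linarith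
      have hs : √A ≤ C := Real.sqrt_le_iff.2 ⟨hC, hAC⟩
      have h1 := key (√A / (1 + C)) (div_pos (Real.sqrt_pos.2 h0) h1C)
        ((div_le_one h1C).2 (by linarith)) (by
          rw [div_pow, Real.sq_sqrt hA0, div_mul_cancel₀ _ (by positivity)])
      refine h1.trans (mul_le_mul_of_nonneg_left ?_ hK0.le)
      exact div_le_self (Real.sqrt_nonneg _) (by linarith)
  have hid : conj b * (b * u - a * v) = (A : ℂ) * u - a * T := by
    have hA' : (A : ℂ) = b * conj b - a * conj a := by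
      rw [Complex.mul_conj, Complex.mul_conj, Complex.normSq_eq_norm_sq,
        Complex.normSq_eq_norm_sq, hA]
      push_cast; rfl
    rw [hA', hT]; ring
  have hn : ‖b‖ * ‖b * u - a * v‖ = ‖(A : ℂ) * u - a * T‖ := by
    rw [← hid, norm_mul, RCLike.norm_conj]
  rw [hn]
  refine (norm_sub_le _ _).trans ?_
  rw [norm_mul, norm_mul, Complex.norm_real, Real.norm_of_nonneg hA0]
  have hs : √A ≤ C := Real.sqrt_le_iff.2 ⟨hC, hAC⟩
  have h1 : A * ‖u‖ ≤ (C * √A) * C := by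
    refine mul_le_mul ?_ hu (norm_nonneg _) (by positivity)
    calc A = √A * √A := (Real.mul_self_sqrt hA0).symm
      _ ≤ C * √A := mul_le_mul_of_nonneg_right hs (Real.sqrt_nonneg _)
  have h2 : ‖a‖ * ‖T‖ ≤ C * (K * √A) := mul_le_mul ha hTA (norm_nonneg _) hC
  nlinarith

/-- `W - conj ζ r = Q D P - P D Q` -/
lemma eval_tang {n : ℕ} (P Q : MvPolynomial (Fin n) ℂ) (ζ : Fin n → ℂ) (i : Fin n) :
    eval ζ (Wr P Q i) - conj (ζ i) * eval ζ (Rr P Q) =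
      eval ζ Q * Dd ζ i P - eval ζ P * Dd ζ i Q := by
  have h1 : eval ζ (Rr P Q) = eval ζ Q * ∑ l, ζ l * eval ζ (pderiv l P) -
      eval ζ P * ∑ l, ζ l * eval ζ (pderiv l Q) := by
    rw [Finset.mul_sum, Finset.mul_sum, ← Finset.sum_sub_distrib, Rr, map_sum]
    refine Finset.sum_congr rfl fun l _ => ?_
    rw [map_mul, eval_X, Wr, map_sub, map_mul, map_mul]
    ring
  rw [Dd_eq, Dd_eq, h1, Wr, map_sub, map_mul, map_mul]
  ring

theorem tang_row : TANG := by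
  intro n P Q hA
  obtain ⟨C₁, h1, hC₁⟩ := expansion P
  obtain ⟨C₂, h2, hC₂⟩ := expansion Q
  set C := C₁ + C₂ with hC
  have hC0 : 0 ≤ C := by positivity
  refine ⟨C * C + C * ((1 + C) ^ 2 + 4 * C ^ 2), by positivity, fun ζ hζ i => ?_⟩
  obtain ⟨a1, b1, c1⟩ := hC₁ ζ hζ i
  obtain ⟨a2, b2, c2⟩ := hC₂ ζ hζ i
  rw [eval_tang]
  refine tang_num C hC0 (eval ζ P) (eval ζ Q) (Dd ζ i P) (Dd ζ i Q) (by linarith) (by linarith)
    (by linarith) (by linarith) (hA.le ζ (le_of_eq hζ)) fun c hc => ?_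
  refine ⟨eval (zl ζ i c) P, eval (zl ζ i c) Q, (c1 c hc).trans ?_, (c2 c hc).trans ?_,
    hA.le _ (zl_mem hζ i hc)⟩
  · exact mul_le_mul_of_nonneg_right (by linarith) (by positivity)
  · exact mul_le_mul_of_nonneg_right (by linarith) (by positivity)

lemma eval_gs {n : ℕ} (P Q p : MvPolynomial (Fin n) ℂ) (z : Fin n → ℂ) :
    eval z (gs P Q p) = eval (fun j => eval z (Wr P Q j)) p := by
  unfold gs
  have h := MvPolynomial.eval₂Hom_bind₁ (RingHom.id ℂ) z (Wr P Q) p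
  exact h

lemma eval_br {n : ℕ} (p : MvPolynomial (Fin n) ℂ) (z : Fin n → ℂ) :
    eval z (br p) = conj (eval (fun i => conj (z i)) p) := eval_bar p z

/-- a polynomial in `W` may be evaluated at `r conj ζ` -/
theorem comp_est_row {n : ℕ} {P Q : MvPolynomial (Fin n) ℂ} (hA : Adm0 P Q)
    (p : MvPolynomial (Fin n) ℂ) :
    ∃ C : ℝ, 0 ≤ C ∧ ∀ ζ ∈ Sph n, ‖eval ζ Q‖ * ‖eval ζ (gs P Q p) -
      eval (fun j => eval ζ (Rr P Q) * conj (ζ j)) p‖ ≤ C * √(dfc P Q ζ) := by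
  obtain ⟨K, hK0, hK⟩ := tang_row n P Q hA
  choose B hB0 hB using fun j => expansion (Wr P Q j)
  obtain ⟨E, hE0, hE⟩ := expansion (Rr P Q)
  have hBs : 0 ≤ ∑ j, B j := Finset.sum_nonneg fun j _ => hB0 j
  obtain ⟨C, hC0, hC⟩ := lipschitz p (∑ j, B j + E) (by positivity)
  refine ⟨C * K, by positivity, fun ζ hζ => ?_⟩
  rw [eval_gs]
  by_cases hQ : eval ζ Q = 0
  · rw [hQ, norm_zero, zero_mul]; positivity
  have hQ' : 0 < ‖eval ζ Q‖ := norm_pos_iff.2 hQ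
  have h1 := (hC (fun j => eval ζ (Wr P Q j)) (fun j => eval ζ (Rr P Q) * conj (ζ j)) ?_ ?_
    (K * √(dfc P Q ζ) / ‖eval ζ Q‖) ?_ (by positivity)).2.2
  · calc ‖eval ζ Q‖ * ‖eval (fun j => eval ζ (Wr P Q j)) p -
          eval (fun j => eval ζ (Rr P Q) * conj (ζ j)) p‖
        ≤ ‖eval ζ Q‖ * (C * (K * √(dfc P Q ζ) / ‖eval ζ Q‖)) :=
          mul_le_mul_of_nonneg_left h1 hQ'.le
      _ = C * K * √(dfc P Q ζ) := by field_simp
  · intro j
    refine ((hB j ζ hζ j).1).trans ?_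
    have := Finset.single_le_sum (f := B) (fun i _ => hB0 i) (Finset.mem_univ j)
    linarith
  · intro j
    rw [norm_mul, RCLike.norm_conj]
    have h2 := (hE ζ hζ j).1
    have h3 := sph_le hζ j
    calc ‖eval ζ (Rr P Q)‖ * ‖ζ j‖ ≤ E * 1 := mul_le_mul h2 h3 (norm_nonneg _) hE0
      _ ≤ ∑ j, B j + E := by linarith
  · intro j
    have h2 := hK ζ hζ j
    rw [le_div_iff₀ hQ', mul_comm (‖_‖) (‖eval ζ Q‖), mul_comm (eval ζ (Rr P Q))]
    exact h2

/-- the cleared conjugate of `p` is `r^N conj p` up to `√A / |Q|` -/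
theorem sum_est {n : ℕ} {P Q : MvPolynomial (Fin n) ℂ} (hA : Adm0 P Q)
    (p : MvPolynomial (Fin n) ℂ) (N : ℕ) (hN : p.totalDegree ≤ N) :
    ∃ C : ℝ, 0 ≤ C ∧ ∀ ζ ∈ Sph n, ‖eval ζ Q * (∑ k ∈ Finset.range (N + 1),
      eval ζ (gs P Q (homogeneousComponent k (br p))) * eval ζ (Rr P Q) ^ (N - k) -
      eval ζ (Rr P Q) ^ N * conj (eval ζ p))‖ ≤ C * √(dfc P Q ζ) := by
  obtain ⟨E, hE0, hE⟩ := expansion (Rr P Q)
  choose C hC0 hC using fun k => comp_est_row hA (homogeneousComponent k (br p))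
  have hS0 : 0 ≤ ∑ k ∈ Finset.range (N + 1), C k * E ^ (N - k) :=
    Finset.sum_nonneg fun k _ => mul_nonneg (hC0 k) (by positivity)
  refine ⟨∑ k ∈ Finset.range (N + 1), C k * E ^ (N - k), hS0, fun ζ hζ => ?_⟩
  by_cases hn : n = 0
  · exfalso
    subst hn
    have : (∑ i : Fin 0, ‖ζ i‖ ^ 2) = 1 := hζ
    simp at this
  have i₀ : Fin n := ⟨0, Nat.pos_of_ne_zero hn⟩
  have hr := (hE ζ hζ i₀).1
  set r := eval ζ (Rr P Q) with hrdef
  set q := eval ζ Q with hq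
  set x : ℕ → ℂ := fun k => eval ζ (gs P Q (homogeneousComponent k (br p))) with hx
  set y : ℕ → ℂ := fun k => eval (fun j => conj (ζ j)) (homogeneousComponent k (br p)) with hy
  have hxy : ∀ k, ‖q‖ * ‖x k - r ^ k * y k‖ ≤ C k * √(dfc P Q ζ) := by
    intro k
    have h1 := hC k ζ hζ
    rw [eval_smul_homog (homogeneousComponent_isHomogeneous k _)] at h1
    exact h1
  have hsum : ∑ k ∈ Finset.range (N + 1), y k = conj (eval ζ p) := by
    have h1 : ∑ k ∈ Finset.range (N + 1), homogeneousComponent k (br p) = br p := by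
      have h2 : (br p).totalDegree = p.totalDegree := by
        unfold br totalDegree
        rw [support_map_of_injective _ (starRingEnd ℂ).injective]
      have h3 := sum_homogeneousComponent (br p)
      rw [h2] at h3
      rw [← Finset.sum_subset (Finset.range_mono (Nat.succ_le_succ hN)) ?_]
      · exact h3
      · intro k _ hk
        refine homogeneousComponent_eq_zero _ _ ?_
        rw [h2]
        simpa using hk
    have h2 := congrArg (eval (fun j => conj (ζ j))) h1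
    rw [map_sum, eval_br] at h2
    simp only [Complex.conj_conj] at h2
    exact h2
  have hmain : q * (∑ k ∈ Finset.range (N + 1), x k * r ^ (N - k) - r ^ N * conj (eval ζ p)) =
      ∑ k ∈ Finset.range (N + 1), q * (x k - r ^ k * y k) * r ^ (N - k) := by
    rw [← hsum, Finset.mul_sum, ← Finset.sum_sub_distrib, Finset.mul_sum]
    refine Finset.sum_congr rfl fun k hk => ?_
    have hkd : k ≤ N := Nat.lt_succ_iff.1 (Finset.mem_range.1 hk)
    have : r ^ N = r ^ k * r ^ (N - k) := by rw [← pow_add, Nat.add_sub_cancel' hkd]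
    rw [this]
    ring
  change ‖q * (∑ k ∈ Finset.range (N + 1), x k * r ^ (N - k) - r ^ N * conj (eval ζ p))‖ ≤ _
  rw [hmain]
  refine (norm_sum_le _ _).trans ?_
  rw [Finset.sum_mul]
  refine Finset.sum_le_sum fun k _ => ?_
  rw [norm_mul, norm_mul, norm_pow]
  calc ‖q‖ * ‖x k - r ^ k * y k‖ * ‖r‖ ^ (N - k) ≤ (C k * √(dfc P Q ζ)) * E ^ (N - k) :=
        mul_le_mul (hxy k) (pow_le_pow_left₀ (norm_nonneg _) hr _) (by positivity)
          (mul_nonneg (hC0 k) (Real.sqrt_nonneg _))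
    _ = C k * E ^ (N - k) * √(dfc P Q ζ) := by ring

/-- the defect is `O` of its root -/
lemma dfc_le_sqrt {n : ℕ} {P Q : MvPolynomial (Fin n) ℂ} (hA : Adm0 P Q) :
    ∃ M : ℝ, 0 ≤ M ∧ ∀ ζ ∈ Sph n, 0 ≤ dfc P Q ζ ∧ dfc P Q ζ ≤ M * √(dfc P Q ζ) := by
  obtain ⟨M, hM0, hM⟩ := expansion Q
  refine ⟨M, hM0, fun ζ hζ => ?_⟩
  by_cases hn : n = 0
  · exfalso
    subst hn
    have : (∑ i : Fin 0, ‖ζ i‖ ^ 2) = 1 := hζ
    simp at this
  have i₀ : Fin n := ⟨0, Nat.pos_of_ne_zero hn⟩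
  have h0 : 0 ≤ dfc P Q ζ := by
    have := pow_le_pow_left₀ (norm_nonneg _) (hA.le ζ (le_of_eq hζ)) 2
    unfold dfc; linarith
  refine ⟨h0, ?_⟩
  have hs : √(dfc P Q ζ) ≤ M := by
    refine Real.sqrt_le_iff.2 ⟨hM0, ?_⟩
    have := pow_le_pow_left₀ (norm_nonneg _) (hM ζ hζ i₀).1 2
    have h2 : 0 ≤ ‖eval ζ P‖ ^ 2 := by positivity
    unfold dfc; linarith
  calc dfc P Q ζ = √(dfc P Q ζ) * √(dfc P Q ζ) := (Real.mul_self_sqrt h0).symm
    _ ≤ M * √(dfc P Q ζ) := mul_le_mul_of_nonneg_right hs (Real.sqrt_nonneg _)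

theorem dest_row : DEST := by
  intro n P Q hA N hP hQ hW hR
  obtain ⟨K, hK0, hK⟩ := tang_row n P Q hA
  obtain ⟨M, hM0, hM⟩ := dfc_le_sqrt hA
  obtain ⟨Ep, hEp0, hEp⟩ := expansion P
  obtain ⟨Eq, hEq0, hEq⟩ := expansion Q
  obtain ⟨Er, hEr0, hEr⟩ := expansion (Rr P Q)
  obtain ⟨Cp, hCp0, hCp⟩ := sum_est hA P N hP
  obtain ⟨Cq, hCq0, hCq⟩ := sum_est hA Q N hQ
  obtain ⟨Cr, hCr0, hCr⟩ := sum_est hA (Rr P Q) N hR
  choose Cw hCw0 hCw using fun j => sum_est hA (Wr P Q j) N (hW j)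
  have hCws : 0 ≤ ∑ j, Cw j := Finset.sum_nonneg fun j _ => hCw0 j
  refine ⟨(Ep * Cp + Eq * Cq + Eq * Er ^ N * M) + ((∑ j, Cw j) + Cr + Er ^ N * K),
    by positivity, fun ζ hζ => ?_⟩
  by_cases hn : n = 0
  · exfalso
    subst hn
    have : (∑ i : Fin 0, ‖ζ i‖ ^ 2) = 1 := hζ
    simp at this
  have i₀ : Fin n := ⟨0, Nat.pos_of_ne_zero hn⟩
  have hp := (hEp ζ hζ i₀).1
  have hq := (hEq ζ hζ i₀).1
  have hr := (hEr ζ hζ i₀).1
  obtain ⟨hA0, hAM⟩ := hM ζ hζ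
  have hCp' := hCp ζ hζ
  have hCq' := hCq ζ hζ
  have hCr' := hCr ζ hζ
  have hrN : ‖eval ζ (Rr P Q) ^ N‖ ≤ Er ^ N := by
    rw [norm_pow]; exact pow_le_pow_left₀ (norm_nonneg _) hr N
  have hs := Real.sqrt_nonneg (dfc P Q ζ)
  refine ⟨?_, fun j => ?_⟩
  · have h1 : eval ζ (Q * dl1 P Q N) =
        eval ζ P * (eval ζ Q * (∑ k ∈ Finset.range (N + 1),
          eval ζ (gs P Q (homogeneousComponent k (br P))) * eval ζ (Rr P Q) ^ (N - k) -
          eval ζ (Rr P Q) ^ N * conj (eval ζ P))) -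
        eval ζ Q * (eval ζ Q * (∑ k ∈ Finset.range (N + 1),
          eval ζ (gs P Q (homogeneousComponent k (br Q))) * eval ζ (Rr P Q) ^ (N - k) -
          eval ζ (Rr P Q) ^ N * conj (eval ζ Q))) -
        eval ζ Q * eval ζ (Rr P Q) ^ N * ((dfc P Q ζ : ℝ) : ℂ) := by
      have h2 : ((dfc P Q ζ : ℝ) : ℂ) = eval ζ Q * conj (eval ζ Q) -
          eval ζ P * conj (eval ζ P) := by
        rw [Complex.mul_conj, Complex.mul_conj, Complex.normSq_eq_norm_sq,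
          Complex.normSq_eq_norm_sq, dfc]
        push_cast; rfl
      rw [h2, dl1, map_mul, map_sub, map_mul, map_mul, map_sum, map_sum]
      simp only [map_mul, map_pow]
      ring
    rw [h1]
    refine (norm_sub_le _ _).trans ((add_le_add (norm_sub_le _ _) le_rfl).trans ?_)
    rw [norm_mul (eval ζ P), norm_mul (eval ζ Q) (eval ζ Q * _), norm_mul (eval ζ Q * _),
      norm_mul (eval ζ Q) (_ ^ N), Complex.norm_real, Real.norm_of_nonneg hA0]
    have i1 := mul_le_mul hp hCp' (norm_nonneg _) hEp0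
    have i2 := mul_le_mul hq hCq' (norm_nonneg _) hEq0
    have i3 : ‖eval ζ Q‖ * ‖eval ζ (Rr P Q) ^ N‖ * dfc P Q ζ ≤
        (Eq * Er ^ N) * (M * √(dfc P Q ζ)) :=
      mul_le_mul (mul_le_mul hq hrN (norm_nonneg _) hEq0) hAM hA0 (by positivity)
    have i4 : 0 ≤ ((∑ j, Cw j) + Cr + Er ^ N * K) * √(dfc P Q ζ) := by positivity
    nlinarith
  · have hζj := sph_le hζ j
    have hCw' := hCw j ζ hζ
    have hKj := hK ζ hζ j
    have h1 : eval ζ (Q * dl2 P Q N j) =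
        eval ζ Q * (∑ k ∈ Finset.range (N + 1),
          eval ζ (gs P Q (homogeneousComponent k (br (Wr P Q j)))) *
            eval ζ (Rr P Q) ^ (N - k) -
          eval ζ (Rr P Q) ^ N * conj (eval ζ (Wr P Q j))) -
        ζ j * (eval ζ Q * (∑ k ∈ Finset.range (N + 1),
          eval ζ (gs P Q (homogeneousComponent k (br (Rr P Q)))) * eval ζ (Rr P Q) ^ (N - k) -
          eval ζ (Rr P Q) ^ N * conj (eval ζ (Rr P Q)))) +
        eval ζ (Rr P Q) ^ N * (eval ζ Q *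
          conj (eval ζ (Wr P Q j) - conj (ζ j) * eval ζ (Rr P Q))) := by
      rw [dl2, map_mul, map_sum]
      simp only [map_mul, map_pow, map_sub, eval_X, Complex.conj_conj, sub_mul,
        Finset.sum_sub_distrib, mul_assoc, ← Finset.mul_sum]
      ring
    rw [h1]
    refine (norm_add_le _ _).trans ((add_le_add (norm_sub_le _ _) le_rfl).trans ?_)
    rw [norm_mul (ζ j), norm_mul (_ ^ N), norm_mul (eval ζ Q) (conj _), RCLike.norm_conj]
    have i1 : ‖ζ j‖ * ‖eval ζ Q * (∑ k ∈ Finset.range (N + 1),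
          eval ζ (gs P Q (homogeneousComponent k (br (Rr P Q)))) * eval ζ (Rr P Q) ^ (N - k) -
          eval ζ (Rr P Q) ^ N * conj (eval ζ (Rr P Q)))‖ ≤ 1 * (Cr * √(dfc P Q ζ)) :=
      mul_le_mul hζj hCr' (norm_nonneg _) zero_le_one
    have i2 := mul_le_mul hrN hKj (by positivity) (by positivity : (0 : ℝ) ≤ Er ^ N)
    have i3 : Cw j * √(dfc P Q ζ) ≤ (∑ j, Cw j) * √(dfc P Q ζ) :=
      mul_le_mul_of_nonneg_right
        (Finset.single_le_sum (f := Cw) (fun i _ => hCw0 i) (Finset.mem_univ j)) hs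
    have i4 : 0 ≤ (Ep * Cp + Eq * Cq + Eq * Er ^ N * M) * √(dfc P Q ζ) := by positivity
    nlinarith

end

end Pool.Agent.Lib.MP_6ff8d9_an.H20R
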