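import Pool.Agent.Lib.MP_6ff8d9_an_h11.Rows

/-!
# Row POIS of MP_6ff8d9 PERRON: the Poisson integral of a continuous function on a circle
-/

open Metric Filter Topology InnerProductSpace Real

namespace Pool.Agent.Lib.MP_6ff8d9_an.H20R

open Pool.Agent.Lib.MP_6ff8d9_an Pool.Agent.Lib.MP_6ff8d9_an.H11

noncomputable section

lemma kernel_eq {a w ζ : ℂ} {ρ : ℝ} (hζ : ζ ∈ sphere a ρ) :
    poissonKernel a w ζ = (ρ ^ 2 - ‖w - a‖ ^ 2) / ‖ζ - w‖ ^ 2 := by
  rw [poissonKernel_def, mem_sphere_iff_norm.1 hζ]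
  congr 3
  ring

lemma kernel_cont {a w : ℂ} {ρ : ℝ} (hw : w ∈ ball a ρ) :
    ContinuousOn (poissonKernel a w) (sphere a ρ) := by
  have h1 : ContinuousOn (fun ζ : ℂ => (ρ ^ 2 - ‖w - a‖ ^ 2) / ‖ζ - w‖ ^ 2) (sphere a ρ) := by
    refine ContinuousOn.div continuousOn_const (by fun_prop) fun ζ hζ => ?_
    refine pow_ne_zero 2 (norm_ne_zero_iff.2 (sub_ne_zero.2 ?_))
    rintro rfl
    rw [mem_ball] at hw
    rw [mem_sphere] at hζ
    linarith
  exact h1.congr fun ζ hζ => kernel_eq hζ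

lemma kernel_nonneg {a w ζ : ℂ} {ρ : ℝ} (hw : w ∈ ball a ρ) (hζ : ζ ∈ sphere a ρ) :
    0 ≤ poissonKernel a w ζ := by
  rw [kernel_eq hζ]
  refine div_nonneg ?_ (by positivity)
  rw [mem_ball_iff_norm] at hw
  nlinarith [norm_nonneg (w - a)]

lemma avg_kernel {a w : ℂ} {ρ : ℝ} (hw : w ∈ ball a ρ) :
    circleAverage (poissonKernel a w) a ρ = 1 := by
  have h1 : HarmonicOnNhd (fun _ : ℂ => (1 : ℝ)) (closedBall a ρ) := by
    intro x _
    exact harmonicAt_const 1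
  have h2 := h1.circleAverage_poissonKernel_smul hw
  have h3 : (poissonKernel a w • fun _ : ℂ => (1 : ℝ)) = poissonKernel a w := by
    funext ζ
    simp
  rwa [h3] at h2

lemma integrable_kernel {a w : ℂ} {ρ : ℝ} {U : ℂ → ℝ} (hρ : 0 < ρ) (hw : w ∈ ball a ρ)
    (hU : ContinuousOn U (sphere a ρ)) :
    CircleIntegrable (fun ζ => poissonKernel a w ζ * U ζ) a ρ :=
  ((kernel_cont hw).mul hU).circleIntegrable hρ.le

lemma PI_eq {a w : ℂ} {ρ : ℝ} {U : ℂ → ℝ} (hρ : 0 < ρ) (hw : w ∈ ball a ρ)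
    (hU : ContinuousOn U (sphere a ρ)) :
    PI U a ρ w = (circleAverage (fun ζ => herglotzRieszKernel 0 (w - a) ζ •
      ((U (ζ + a) : ℝ) : ℂ)) 0 ρ).re := by
  have hw' : w - a ∈ ball (0 : ℂ) ρ := by
    rw [mem_ball_zero_iff]
    exact mem_ball_iff_norm.1 hw
  have hg : CircleIntegrable (fun ζ => U (ζ + a)) 0 ρ := by
    refine ContinuousOn.circleIntegrable hρ.le ?_
    refine hU.comp (by fun_prop) fun ζ hζ => ?_
    rw [mem_sphere_iff_norm, add_sub_cancel_right]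
    exact mem_sphere_zero_iff_norm.1 hζ
  have h1 := re_circleAverage_herglotzRieszKernel_smul hg hw'
  rw [h1, PI, ← circleAverage_map_add_const]
  congr 1
  funext ζ
  rw [Pi.smul_apply', smul_eq_mul, poissonKernel_eq_re_herglotzRieszKernel, Function.comp_apply,
    Function.comp_apply, herglotzRieszKernel_add_const]

lemma harmonic_PI {a : ℂ} {ρ : ℝ} {U : ℂ → ℝ} (hρ : 0 < ρ) (hU : ContinuousOn U (sphere a ρ)) :
    HarmonicOnNhd (PI U a ρ) (ball a ρ) := by
  intro w hw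
  have hg : CircleIntegrable (fun ζ => ((U (ζ + a) : ℝ) : ℂ)) 0 ρ := by
    refine ContinuousOn.circleIntegrable hρ.le ?_
    refine Complex.continuous_ofReal.comp_continuousOn (hU.comp (by fun_prop) fun ζ hζ => ?_)
    rw [mem_sphere_iff_norm, add_sub_cancel_right]
    exact mem_sphere_zero_iff_norm.1 hζ
  have h1 := analyticOnNhd_circleAverage_herglotzRieszKernel_smul hg
  have hw' : w - a ∈ ball (0 : ℂ) ρ := by
    rw [mem_ball_zero_iff]
    exact mem_ball_iff_norm.1 hw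
  have h2 : AnalyticAt ℂ (fun w : ℂ => circleAverage (fun ζ => herglotzRieszKernel 0 (w - a) ζ •
      ((U (ζ + a) : ℝ) : ℂ)) 0 ρ) w := by
    have h3 : AnalyticAt ℂ (fun w : ℂ => w - a) w := analyticAt_id.sub analyticAt_const
    exact AnalyticAt.fun_comp (g := fun w : ℂ => circleAverage (fun ζ =>
      herglotzRieszKernel 0 w ζ • ((U (ζ + a) : ℝ) : ℂ)) 0 ρ) (h1 _ hw') h3
  refine (harmonicAt_congr_nhds ?_).2 h2.harmonicAt_re
  filter_upwards [isOpen_ball.mem_nhds hw] with x hx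
  exact PI_eq hρ hx hU

theorem pois : POIS := by
  intro a ρ U hρ hU
  refine ⟨harmonic_PI hρ hU, fun ζ₀ hζ₀ => ?_⟩
  obtain ⟨M, hM⟩ := (isCompact_sphere a ρ).exists_bound_of_continuousOn hU
  have hM0 : 0 ≤ M := (norm_nonneg _).trans (hM ζ₀ hζ₀)
  rw [Metric.tendsto_nhds]
  intro ε hε
  obtain ⟨δ, hδ, hδU⟩ := Metric.continuousWithinAt_iff.1 (hU ζ₀ hζ₀) (ε / 2) (by positivity)
  have hr : Tendsto (fun w : ℂ => 2 * M * ((ρ ^ 2 - ‖w - a‖ ^ 2) / (δ / 2) ^ 2))
      (𝓝[ball a ρ] ζ₀) (𝓝 0) := by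
    have h1 : Continuous fun w : ℂ => 2 * M * ((ρ ^ 2 - ‖w - a‖ ^ 2) / (δ / 2) ^ 2) := by
      fun_prop
    have h2 := h1.tendsto ζ₀
    rw [mem_sphere_iff_norm.1 hζ₀, sub_self, zero_div, mul_zero] at h2
    exact h2.mono_left nhdsWithin_le_nhds
  have e1 : ∀ᶠ w in 𝓝[ball a ρ] ζ₀, 2 * M * ((ρ ^ 2 - ‖w - a‖ ^ 2) / (δ / 2) ^ 2) < ε / 2 :=
    hr.eventually (gt_mem_nhds (by positivity))
  have e2 : ∀ᶠ w in 𝓝[ball a ρ] ζ₀, w ∈ ball ζ₀ (δ / 2) :=
    mem_nhdsWithin_of_mem_nhds (ball_mem_nhds _ (by positivity))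
  have e3 : ∀ᶠ w in 𝓝[ball a ρ] ζ₀, w ∈ ball a ρ := self_mem_nhdsWithin
  filter_upwards [e1, e2, e3] with w h1 h2 h3
  have hA : 0 ≤ ρ ^ 2 - ‖w - a‖ ^ 2 := by
    rw [mem_ball_iff_norm] at h3
    nlinarith [norm_nonneg (w - a)]
  set B := 2 * M * ((ρ ^ 2 - ‖w - a‖ ^ 2) / (δ / 2) ^ 2) with hB
  have hB0 : 0 ≤ B := by positivity
  have hsub : PI U a ρ w - U ζ₀ =
      circleAverage (fun ζ => poissonKernel a w ζ * (U ζ - U ζ₀)) a ρ := by
    have h4 : (fun ζ => poissonKernel a w ζ * (U ζ - U ζ₀)) =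
        fun ζ => poissonKernel a w ζ * U ζ - U ζ₀ • poissonKernel a w ζ := by
      funext ζ
      rw [smul_eq_mul]
      ring
    have h5 : ContinuousOn (fun ζ => U ζ₀ • poissonKernel a w ζ) (sphere a ρ) :=
      (kernel_cont h3).const_smul (U ζ₀)
    rw [h4, circleAverage_fun_sub (integrable_kernel hρ h3 hU) (h5.circleIntegrable hρ.le),
      circleAverage_fun_smul, avg_kernel h3, smul_eq_mul, mul_one, PI]
  have hpt : ∀ ζ ∈ sphere a |ρ|, |poissonKernel a w ζ * (U ζ - U ζ₀)| ≤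
      (ε / 2) • poissonKernel a w ζ + B := by
    intro ζ hζ
    rw [abs_of_pos hρ] at hζ
    have hk := kernel_nonneg h3 hζ
    rw [abs_mul, abs_of_nonneg hk, smul_eq_mul]
    by_cases hd : dist ζ ζ₀ < δ
    · have h5 := hδU hζ hd
      rw [Real.dist_eq] at h5
      nlinarith
    · push Not at hd
      have h6 : |U ζ - U ζ₀| ≤ 2 * M := by
        have h7 := hM ζ hζ
        have h8 := hM ζ₀ hζ₀
        rw [Real.norm_eq_abs] at h7 h8
        have := abs_sub (U ζ) (U ζ₀)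
        linarith
      have h9 : δ / 2 ≤ ‖ζ - w‖ := by
        rw [← dist_eq_norm]
        have h10 := dist_triangle ζ w ζ₀
        rw [mem_ball] at h2
        linarith
      have h11 : poissonKernel a w ζ ≤ (ρ ^ 2 - ‖w - a‖ ^ 2) / (δ / 2) ^ 2 := by
        rw [kernel_eq hζ]
        exact div_le_div_of_nonneg_left hA (by positivity)
          (pow_le_pow_left₀ (by positivity) h9 2)
      have h12 : poissonKernel a w ζ * |U ζ - U ζ₀| ≤
          (ρ ^ 2 - ‖w - a‖ ^ 2) / (δ / 2) ^ 2 * (2 * M) :=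
        mul_le_mul h11 h6 (abs_nonneg _) (by positivity)
      have h13 : 0 ≤ ε / 2 * poissonKernel a w ζ := by positivity
      rw [hB]
      linarith
  have hcU : ContinuousOn (fun ζ => poissonKernel a w ζ * (U ζ - U ζ₀)) (sphere a ρ) :=
    (kernel_cont h3).mul (hU.sub continuousOn_const)
  have hcK : ContinuousOn (fun ζ => (ε / 2) • poissonKernel a w ζ) (sphere a ρ) :=
    (kernel_cont h3).const_smul (ε / 2)
  have hle : |PI U a ρ w - U ζ₀| ≤ ε / 2 + B := by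
    rw [hsub]
    refine abs_circleAverage_le_circleAverage_abs.trans ?_
    have h5 : circleAverage |fun ζ => poissonKernel a w ζ * (U ζ - U ζ₀)| a ρ ≤
        circleAverage (fun ζ => (ε / 2) • poissonKernel a w ζ + B) a ρ := by
      refine circleAverage_mono (hcU.abs.circleIntegrable hρ.le)
        ((hcK.add continuousOn_const).circleIntegrable hρ.le) fun ζ hζ => ?_
      exact hpt ζ hζ
    refine h5.trans (le_of_eq ?_)
    rw [circleAverage_fun_add (hcK.circleIntegrable hρ.le)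
      (continuousOn_const.circleIntegrable hρ.le), circleAverage_fun_smul, avg_kernel h3,
      circleAverage_const, smul_eq_mul, mul_one]
  rw [Real.dist_eq]
  linarith

end

end Pool.Agent.Lib.MP_6ff8d9_an.H20R
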