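import Pool.Agent.Lib.MP_6ff8d9_an_h69r.Nodom

/-!
# Row ADM of MP_6ff8d9 RATIONAL: membership in `N(𝔹)` gives admissibility
-/

open Metric Filter Topology MvPolynomial
open scoped ComplexConjugate

namespace Pool.Agent.Lib.MP_6ff8d9_an.H20R

open Pool.Agent.Lib.MP_6ff8d9_an Pool.Agent.Lib.MP_6ff8d9_an.Hom
open Pool.Agent.Lib.MP_6ff8d9_an.Hom.M2 Pool.Agent.Lib.MP_6ff8d9_an.Hom.H20
open Pool.Agent.Lib.MP_6ff8d9_an.H22

noncomputable section

lemma Rr_eq {n : ℕ} (P Q : MvPolynomial (Fin n) ℂ) : Rr P Q = Q * Rd P - P * Rd Q := by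
  unfold Rr Wr Rd
  rw [Finset.mul_sum, Finset.mul_sum, ← Finset.sum_sub_distrib]
  refine Finset.sum_congr rfl fun l _ => ?_
  ring

/-- if the radial derivative of `P/Q` vanishes and `P(0) = 0 ≠ Q(0)` then `P = 0` -/
lemma eq_zero_of_Rr {n : ℕ} (P Q : MvPolynomial (Fin n) ℂ) (hP : coeff 0 P = 0)
    (hQ : coeff 0 Q ≠ 0) (h : Rr P Q = 0) : P = 0 := by
  by_contra hne
  rw [Rr_eq, sub_eq_zero] at h
  obtain ⟨γ, hγ, hmin⟩ : ∃ γ : Fin n →₀ ℕ, coeff γ P ≠ 0 ∧
      ∀ β : Fin n →₀ ℕ, coeff β P ≠ 0 → γ.degree ≤ β.degree := by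
    have hex : ∃ m : ℕ, ∃ γ : Fin n →₀ ℕ, coeff γ P ≠ 0 ∧ γ.degree = m := by
      by_contra hcon
      push Not at hcon
      refine hne (MvPolynomial.ext _ _ fun γ => ?_)
      by_contra h1
      exact hcon γ.degree γ (by simpa using h1) rfl
    classical
    obtain ⟨γ, h1, h2⟩ := Nat.find_spec hex
    exact ⟨γ, h1, fun β hβ => by rw [h2]; exact Nat.find_min' hex ⟨β, hβ, rfl⟩⟩
  have hγ0 : γ ≠ 0 := by
    rintro rfl
    exact hγ hP
  have hdeg : γ.degree ≠ 0 := by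
    intro h1
    exact hγ0 ((Finsupp.degree_eq_zero_iff γ).1 h1)
  have hc := congrArg (coeff γ) h
  classical
  rw [coeff_mul, coeff_mul] at hc
  have e1 : ∑ x ∈ Finset.HasAntidiagonal.antidiagonal γ, coeff x.1 Q * coeff x.2 (Rd P) =
      coeff 0 Q * ((γ.degree : ℂ) * coeff γ P) := by
    rw [Finset.sum_eq_single (0, γ)]
    · rw [coeff_Rd]
    · rintro ⟨α, β⟩ hx hne'
      rw [Finset.HasAntidiagonal.mem_antidiagonal] at hx
      simp only at hx ⊢
      rw [coeff_Rd]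
      by_cases hβ : coeff β P = 0
      · rw [hβ]; ring
      · exfalso
        have h1 := hmin β hβ
        have h2 : γ.degree = α.degree + β.degree := by rw [← hx, map_add]
        have h3 : α = 0 := (Finsupp.degree_eq_zero_iff α).1 (by omega)
        subst h3
        rw [zero_add] at hx
        subst hx
        exact hne' rfl
    · intro hx
      exact absurd (by simp) hx
  have e2 : ∑ x ∈ Finset.HasAntidiagonal.antidiagonal γ, coeff x.1 P * coeff x.2 (Rd Q) = 0 := by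
    refine Finset.sum_eq_zero ?_
    rintro ⟨α, β⟩ hx
    rw [Finset.HasAntidiagonal.mem_antidiagonal] at hx
    simp only at hx ⊢
    rw [coeff_Rd]
    by_cases hα : coeff α P = 0
    · rw [hα]; ring
    · have h1 := hmin α hα
      have h2 : γ.degree = α.degree + β.degree := by rw [← hx, map_add]
      have h3 : β = 0 := (Finsupp.degree_eq_zero_iff β).1 (by omega)
      subst h3
      simp
  rw [e1, e2] at hc
  rcases mul_eq_zero.1 hc with h1 | h1
  · exact hQ h1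
  · rcases mul_eq_zero.1 h1 with h2 | h2
    · exact hdeg (by exact_mod_cast h2)
    · exact hγ h2

lemma norm_lt_of_cayley {a b : ℂ} (h : 0 < ((b + a) / (b - a)).re) : ‖a‖ < ‖b‖ := by
  have hne : b - a ≠ 0 := by
    intro h1
    rw [h1, div_zero] at h
    simp at h
  have hN : 0 < Complex.normSq (b - a) := Complex.normSq_pos.2 hne
  rw [Complex.div_re, ← add_div] at h
  have h1 : 0 < (b + a).re * (b - a).re + (b + a).im * (b - a).im := by
    by_contra hcon
    push Not at hcon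
    exact absurd h (not_lt.2 (div_nonpos_of_nonpos_of_nonneg hcon hN.le))
  have h2 : ‖a‖ ^ 2 < ‖b‖ ^ 2 := by
    rw [← Complex.normSq_eq_norm_sq, ← Complex.normSq_eq_norm_sq, Complex.normSq_apply,
      Complex.normSq_apply]
    simp only [Complex.add_re, Complex.sub_re, Complex.add_im, Complex.sub_im] at h1
    nlinarith
  exact lt_of_pow_lt_pow_left₀ 2 (norm_nonneg _) h2

theorem adm : ADM := by
  intro n P Q hn hg
  obtain ⟨hd, hpos, h0⟩ := id hg
  have hltC : ∀ z ∈ ball (0 : Cn n) 1,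
      ‖eval (fun i => z i) P‖ < ‖eval (fun i => z i) Q‖ :=
    fun z hz => norm_lt_of_cayley (hpos z hz)
  have hlt : ∀ z : Fin n → ℂ, ∑ i, ‖z i‖ ^ 2 < 1 → ‖eval z P‖ < ‖eval z Q‖ := by
    intro z hz
    exact hltC (WithLp.toLp 2 z : Cn n) ((M5.mem_ball_iff _).2 hz)
  have hle : ∀ z : Fin n → ℂ, ∑ i, ‖z i‖ ^ 2 ≤ 1 → ‖eval z P‖ ≤ ‖eval z Q‖ :=
    Rat69.le_closed P Q hltC
  have hz0 : ‖eval (0 : Fin n → ℂ) P‖ < ‖eval (0 : Fin n → ℂ) Q‖ := hlt 0 (by simp)
  have hP0 : eval (0 : Fin n → ℂ) P = 0 := by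
    have h1 : (eval (0 : Fin n → ℂ) Q + eval (0 : Fin n → ℂ) P) /
        (eval (0 : Fin n → ℂ) Q - eval (0 : Fin n → ℂ) P) = 1 := h0
    have hne : eval (0 : Fin n → ℂ) Q - eval (0 : Fin n → ℂ) P ≠ 0 := by
      intro h2
      rw [sub_eq_zero] at h2
      rw [h2] at hz0
      exact lt_irrefl _ hz0
    rw [div_eq_one_iff_eq hne] at h1
    have h3 : (2 : ℂ) * eval (0 : Fin n → ℂ) P = 0 := by linear_combination h1
    rcases mul_eq_zero.1 h3 with h | h
    · norm_num at h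
    · exact h
  have hA : Adm0 P Q := ⟨hlt, hle, hP0⟩
  refine ⟨hA, fun hQ => ⟨hA, fun z hz => ?_⟩, fun hex hR => ?_⟩
  · refine hQ (WithLp.toLp 2 z : Cn n) ?_
    rw [EuclideanSpace.norm_eq, Real.sqrt_le_iff]
    exact ⟨zero_le_one, by rw [one_pow]; exact hz⟩
  · have hQ0 : eval (0 : Fin n → ℂ) Q ≠ 0 := by
      intro h1
      rw [h1, norm_zero] at hz0
      exact absurd hz0 (not_lt.2 (norm_nonneg _))
    have hP : P = 0 := by
      refine eq_zero_of_Rr P Q ?_ ?_ hR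
      · rw [← constantCoeff_eq, ← eval_zero]; exact hP0
      · rw [← constantCoeff_eq, ← eval_zero]; exact hQ0
    have hQz : Q = 0 := by
      refine nodom n P Q hn hA hex Q ⟨1, zero_le_one, fun ζ _ => ?_⟩
      rw [dfc, hP, map_zero, norm_zero, one_mul, zero_pow two_ne_zero, sub_zero,
        Real.sqrt_sq (norm_nonneg _)]
    rw [hQz, map_zero] at hQ0
    exact hQ0 rfl

end

end Pool.Agent.Lib.MP_6ff8d9_an.H20R
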