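import Pool.Agent.Lib.MP_6ff8d9_an_h82.RowsL

/-!
# MP_6ff8d9, THEOREM L, row EXTL: no dominated function implies extreme
-/

open Metric Filter Topology

namespace Pool.Agent.Lib.MP_6ff8d9_an.H82L

open Pool.Agent.Lib.MP_6ff8d9_an

noncomputable section

theorem extl : EXTL := by
  intro n g hg H
  refine ⟨hg, fun g₁ h₁ g₂ h₂ t ht0 ht1 hdec => ?_⟩
  set ε : ℝ := min t (1 - t) with hε
  have hε0 : 0 < ε := lt_min ht0 (by linarith)
  have hε1 : ε ≤ t := min_le_left _ _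
  have hε2 : ε ≤ 1 - t := min_le_right _ _
  have hkd : DifferentiableOn ℂ (fun z : Cn n => (ε : ℂ) * (g₁ z - g₂ z)) (ball 0 1) :=
    (h₁.1.fun_sub h₂.1).const_mul (ε : ℂ)
  have hk0 : (fun z : Cn n => (ε : ℂ) * (g₁ z - g₂ z)) 0 = 0 := by
    show (ε : ℂ) * (g₁ 0 - g₂ 0) = 0
    rw [h₁.2.2, h₂.2.2, sub_self, mul_zero]
  have hkre : ∀ z ∈ ball (0 : Cn n) 1,
      |((fun z : Cn n => (ε : ℂ) * (g₁ z - g₂ z)) z).re| ≤ (g z).re := by
    intro z hz
    show |((ε : ℂ) * (g₁ z - g₂ z)).re| ≤ (g z).re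
    rw [hdec _ hz]
    have a1 := h₁.2.1 _ hz
    have a2 := h₂.2.1 _ hz
    set A := g₁ z with hA
    set B := g₂ z with hB
    have e3 : ((ε : ℂ) * (A - B)).re = ε * (A.re - B.re) := by
      rw [Complex.re_ofReal_mul, Complex.sub_re]
    have e4 : ((t : ℂ) * A + (1 - (t : ℂ)) * B).re = t * A.re + (1 - t) * B.re := by
      rw [Complex.add_re, Complex.re_ofReal_mul]
      have : (1 - (t : ℂ)) = ((1 - t : ℝ) : ℂ) := by push_cast; rfl
      rw [this, Complex.re_ofReal_mul]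
    rw [e3, e4, abs_le]
    constructor
    · nlinarith
    · nlinarith
  intro z hz
  have h3 : (ε : ℂ) * (g₁ z - g₂ z) = 0 := H _ hkd hk0 hkre z hz
  have h5 : (ε : ℂ) ≠ 0 := by exact_mod_cast hε0.ne'
  exact sub_eq_zero.1 ((mul_eq_zero.1 h3).resolve_left h5)

end

end Pool.Agent.Lib.MP_6ff8d9_an.H82L
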