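import Pool.Agent.Lib.MP_6ff8d9_an_h99.LocalRow

/-!
# Row RADIAL of MP_6ff8d9 RATIONAL
-/

open Metric Filter Topology MvPolynomial
open scoped ComplexConjugate

namespace Pool.Agent.Lib.MP_6ff8d9_an.H20R

open Pool.Agent.Lib.MP_6ff8d9_an Pool.Agent.Lib.MP_6ff8d9_an.H22
open Pool.Agent.Lib.MP_6ff8d9_an.H99

noncomputable section

theorem radial_of (hCon : CONTACT) : RADIAL := by
  intro n P Q hA m hm
  obtain ⟨-, b, hb, h2⟩ := hCon n P Q hA m hm
  have hQ : eval m Q ≠ 0 := hA.Qne m (le_of_eq hm.1)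
  have hP : eval m P ≠ 0 := by
    rw [← norm_pos_iff, hm.2]
    exact norm_pos_iff.2 hQ
  have hR : eval m (Rr P Q) ≠ 0 := by
    rw [h2]
    exact mul_ne_zero (by exact_mod_cast hb.ne') (mul_ne_zero hP hQ)
  have hg : Continuous fun t : ℝ => (1 - (t : ℂ)) • m := by fun_prop
  have hg0 : Tendsto (fun t : ℝ => (1 - (t : ℂ)) • m) (𝓝 0) (𝓝 m) := by
    have h := hg.tendsto 0
    simpa using h
  have hf : ContinuousAt (fr P Q) m := (fderiv_fr hQ 0).1.continuousAt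
  refine ⟨(hf.tendsto.comp hg0).mono_left nhdsWithin_le_nhds, ?_⟩
  have hball : ∀ t : ℝ, 0 < t → t < 1 → ∑ i, ‖((1 - (t : ℂ)) • m) i‖ ^ 2 < 1 := by
    intro t ht0 ht1
    have h3 : ∀ i, ‖((1 - (t : ℂ)) • m) i‖ ^ 2 = (1 - t) ^ 2 * ‖m i‖ ^ 2 := by
      intro i
      have h4 : (1 - (t : ℂ)) = ((1 - t : ℝ) : ℂ) := by push_cast; rfl
      rw [Pi.smul_apply, smul_eq_mul, norm_mul, mul_pow, h4, Complex.norm_real,
        Real.norm_of_nonneg (by linarith)]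
    rw [Finset.sum_congr rfl fun i _ => h3 i, ← Finset.mul_sum, hm.1, mul_one]
    nlinarith
  have e1 : ∀ᶠ t : ℝ in 𝓝[>] 0, 0 < t := self_mem_nhdsWithin
  have e2 : ∀ᶠ t : ℝ in 𝓝[>] 0, t < 1 :=
    (tendsto_id.mono_left nhdsWithin_le_nhds).eventually (gt_mem_nhds zero_lt_one)
  have e3 : ∀ᶠ t : ℝ in 𝓝[>] 0, ∑ j, eval ((1 - (t : ℂ)) • m) (Wr P Q j) * m j ≠ 0 := by
    have hc : Continuous fun t : ℝ => ∑ j, eval ((1 - (t : ℂ)) • m) (Wr P Q j) * m j := by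
      refine continuous_finsetSum _ fun j _ => ?_
      exact ((continuous_eval' (Wr P Q j)).comp hg).mul continuous_const
    have h3 : (fun t : ℝ => ∑ j, eval ((1 - (t : ℂ)) • m) (Wr P Q j) * m j) 0 ≠ 0 := by
      have h4 : (1 - ((0 : ℝ) : ℂ)) • m = m := by simp
      show ∑ j, eval ((1 - ((0 : ℝ) : ℂ)) • m) (Wr P Q j) * m j ≠ 0
      rw [h4]
      rw [eval_Rr] at hR
      intro h5
      refine hR ?_
      rw [← h5]
      exact Finset.sum_congr rfl fun j _ => mul_comm _ _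
    exact (hc.continuousAt.eventually_ne h3).filter_mono nhdsWithin_le_nhds
  filter_upwards [e1, e2, e3] with t ht0 ht1 ht3
  have hb1 := hball t ht0 ht1
  have hlt := hA.lt _ hb1
  have hQt : eval ((1 - (t : ℂ)) • m) Q ≠ 0 := hA.Qne _ hb1.le
  refine ⟨?_, ?_⟩
  · unfold fr
    rw [norm_div, div_lt_one (norm_pos_iff.2 hQt)]
    exact hlt
  · obtain ⟨h4, -⟩ := fderiv_fr hQt 0 (P := P)
    have h5 : HasDerivAt (fun t : ℝ => (1 - (t : ℂ)) • m) (-m) t := by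
      have h6 : HasDerivAt (fun t : ℝ => (1 - (t : ℂ))) (-1) t :=
        (Complex.ofRealCLM.hasDerivAt (x := t)).const_sub 1
      have h7 := h6.smul_const m
      simpa using h7
    have h6 := (h4.hasFDerivAt.restrictScalars ℝ).comp_hasDerivAt t h5
    refine ⟨_, ?_, h6⟩
    rw [ContinuousLinearMap.coe_restrictScalars', map_neg, neg_ne_zero, (fderiv_fr hQt m).2]
    exact div_ne_zero ht3 (pow_ne_zero 2 hQt)

end

end Pool.Agent.Lib.MP_6ff8d9_an.H20R
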