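import Pool.Agent.Lib.MP_6ff8d9_an_h69.Rows
import Pool.Agent.Lib.MP_6ff8d9_an_h82.Green
import Pool.Agent.Lib.MP_6ff8d9_an_h77.Phre

/-!
# MP_6ff8d9 PRIME rows, SURJ: an extreme point takes all the values
-/

open Metric Filter Topology
open scoped ComplexConjugate

namespace Pool.Agent.Lib.MP_6ff8d9_an.P69

open Pool.Agent.Lib.MP_6ff8d9_an Pool.Agent.Lib.MP_6ff8d9_an.H11

noncomputable section

variable {n : ℕ}

lemma surj_den {w0 w : ℂ} (h0 : ‖w0‖ < 1) (h : ‖w‖ < 1) : 1 - conj w0 * w ≠ 0 := by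
  intro h1
  have h2 : ‖conj w0 * w‖ < 1 := by
    rw [norm_mul, Complex.norm_conj]
    exact mul_lt_one_of_nonneg_of_lt_one_left (norm_nonneg _) h0 h.le
  rw [← sub_eq_zero.1 h1, norm_one] at h2
  exact lt_irrefl _ h2

lemma mob_inj {w0 w w' : ℂ} (h0 : ‖w0‖ < 1) (h : ‖w‖ < 1) (h' : ‖w'‖ < 1)
    (he : mob w0 w = mob w0 w') : w = w' := by
  unfold mob at he
  have h1 : (1 - w0) ≠ 0 := by
    intro h2
    rw [← sub_eq_zero.1 h2, norm_one] at h0
    exact lt_irrefl _ h0
  have h2 : (1 - conj w0) ≠ 0 := by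
    intro h2
    have h3 : ‖conj w0‖ = 1 := by rw [← sub_eq_zero.1 h2, norm_one]
    rw [Complex.norm_conj] at h3
    exact h0.ne h3
  have h3 := mul_left_cancel₀ (div_ne_zero h2 h1) he
  rw [div_eq_div_iff (surj_den h0 h) (surj_den h0 h')] at h3
  have h4 : (w - w') * (1 - conj w0 * w0) = 0 := by linear_combination h3
  have h5 : 1 - conj w0 * w0 ≠ 0 := surj_den h0 h0
  exact sub_eq_zero.1 ((mul_eq_zero.1 h4).resolve_right h5)

lemma mob_diff {F : Cn n → ℂ} (hF : Hol n F) {w0 : ℂ} (h0 : ‖w0‖ < 1) :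
    DifferentiableOn ℂ (fun z => mob w0 (F z)) (ball 0 1) := by
  have h1 : DifferentiableOn ℂ (fun z => (F z - w0) / (1 - conj w0 * F z)) (ball 0 1) := by
    have h2 : DifferentiableOn ℂ (fun z => 1 - conj w0 * F z) (ball 0 1) :=
      (hF.an.const_mul (conj w0)).const_sub 1
    simp only [div_eq_mul_inv]
    exact (hF.an.sub_const w0).fun_mul (h2.fun_inv fun z hz => surj_den h0 (hF.lt z hz))
  exact h1.const_mul ((1 - conj w0) / (1 - w0))

/-- a zero free holomorphic function on the ball is, up to a constant, an exponential -/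
lemma exists_exp {M : Cn n → ℂ} (hM : DifferentiableOn ℂ M (ball 0 1))
    (h0 : ∀ z ∈ ball (0 : Cn n) 1, M z ≠ 0) :
    ∃ (c : ℂ) (k : Cn n → ℂ), DifferentiableOn ℂ k (ball 0 1) ∧
      ∀ z ∈ ball (0 : Cn n) 1, M z = c * Complex.exp (k z) := by
  have hL : ∀ z0 ∈ ball (0 : Cn n) 1, LRe (fun z => Real.log ‖M z‖) z0 := by
    intro z0 hz0
    have hc : ContinuousAt (fun z => M z / M z0) z0 :=
      ((hM.differentiableAt (isOpen_ball.mem_nhds hz0)).continuousAt).div_const _
    have h1 : M z0 / M z0 ∈ Complex.slitPlane := by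
      rw [div_self (h0 z0 hz0)]
      exact Complex.one_mem_slitPlane
    have h2 : ∀ᶠ z in 𝓝 z0, M z / M z0 ∈ Complex.slitPlane :=
      hc.eventually (Complex.isOpen_slitPlane.mem_nhds h1)
    refine ⟨fun z => Complex.log (M z / M z0) + (Real.log ‖M z0‖ : ℂ), ?_⟩
    filter_upwards [h2, isOpen_ball.mem_nhds hz0] with z hz hzb
    refine ⟨?_, ?_⟩
    · have h3 : DifferentiableAt ℂ (fun z => M z / M z0) z := by
        simp only [div_eq_mul_inv]
        exact (hM.differentiableAt (isOpen_ball.mem_nhds hzb)).mul_const (M z0)⁻¹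
      exact (h3.clog hz).add_const _
    · rw [Complex.add_re, Complex.log_re, Complex.ofReal_re, norm_div,
        Real.log_div (norm_ne_zero_iff.2 (h0 z hzb)) (norm_ne_zero_iff.2 (h0 z0 hz0))]
      ring
  obtain ⟨k, hk, hkv⟩ := phre n _ hL
  set c : Cn n → ℂ := fun z => M z * Complex.exp (-k z) with hc
  have hcd : DifferentiableOn ℂ c (ball 0 1) := hM.mul hk.neg.cexp
  have hcn : ∀ z ∈ ball (0 : Cn n) 1, ‖c z‖ = 1 := by
    intro z hz
    simp only [hc]
    rw [norm_mul, Complex.norm_exp, Complex.neg_re, ← hkv z hz, Real.exp_neg,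
      Real.exp_log (norm_pos_iff.2 (h0 z hz)), mul_inv_cancel₀ (norm_ne_zero_iff.2 (h0 z hz))]
  have h0b : (0 : Cn n) ∈ ball (0 : Cn n) 1 := mem_ball_self one_pos
  have hconst : ∀ z ∈ ball (0 : Cn n) 1, c z = c 0 := by
    intro z hz
    have hmax : IsMaxOn (norm ∘ c) (ball (0 : Cn n) 1) 0 := by
      intro y hy
      simp only [Function.comp, Set.mem_ofPred_eq]
      rw [hcn y hy, hcn 0 h0b]
    exact Complex.eqOn_of_isPreconnected_of_isMaxOn_norm
      (convex_ball (0 : Cn n) 1).isPreconnected isOpen_ball hcd h0b hmax hz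
  refine ⟨c 0, k, hk, fun z hz => ?_⟩
  rw [← hconst z hz]
  simp only [hc]
  rw [mul_assoc, ← Complex.exp_add, neg_add_cancel, Complex.exp_zero, mul_one]

/-- the constant function is not extreme for `n ≥ 1` -/
lemma not_extreme_one (hn : 1 ≤ n) (g : Cn n → ℂ) (hg : ∀ z ∈ ball (0 : Cn n) 1, g z = 1) :
    ¬ IsExtremePoint n g := by
  rintro ⟨-, hex⟩
  set i0 : Fin n := ⟨0, hn⟩ with hi0
  have hnorm : ∀ z ∈ ball (0 : Cn n) 1, ‖z i0‖ < 1 := by
    intro z hz
    rw [mem_ball_zero_iff] at hz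
    exact (PiLp.norm_apply_le z i0).trans_lt hz
  have hproj : Differentiable ℂ (fun z : Cn n => z i0) :=
    (EuclideanSpace.proj i0 : Cn n →L[ℂ] ℂ).differentiable
  have h1 : (fun z : Cn n => 1 + z i0) ∈ NB n := by
    refine ⟨(hproj.const_add 1).differentiableOn, ?_, ?_⟩
    · intro z hz
      show 0 < (1 + z i0).re
      rw [Complex.add_re, Complex.one_re]
      have h2 := abs_le.1 ((Complex.abs_re_le_norm (z i0)).trans (hnorm z hz).le)
      have h3 := (abs_lt.1 ((Complex.abs_re_le_norm (z i0)).trans_lt (hnorm z hz))).1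
      linarith
    · show 1 + (0 : Cn n) i0 = 1
      simp
  have h2 : (fun z : Cn n => 1 - z i0) ∈ NB n := by
    refine ⟨(hproj.const_sub 1).differentiableOn, ?_, ?_⟩
    · intro z hz
      show 0 < (1 - z i0).re
      rw [Complex.sub_re, Complex.one_re]
      have h3 := (abs_lt.1 ((Complex.abs_re_le_norm (z i0)).trans_lt (hnorm z hz))).2
      linarith
    · show 1 - (0 : Cn n) i0 = 1
      simp
  have h3 := hex _ h1 _ h2 (1 / 2) (by norm_num) (by norm_num) (by
    intro z hz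
    rw [hg z hz]
    push_cast
    ring)
  have hz : (EuclideanSpace.single i0 (1 / 2 : ℂ) : Cn n) ∈ ball (0 : Cn n) 1 := by
    rw [mem_ball_zero_iff, PiLp.norm_single]
    norm_num
  have h4 := h3 _ hz
  simp only [PiLp.single_apply, if_true] at h4
  norm_num at h4

theorem surj (hI : IRR) : SURJ := by
  intro n F hn hF hF0 hex w0 hw0
  by_contra hcon
  push Not at hcon
  have hw : ‖w0‖ < 1 := by simpa using hw0
  have hMd := mob_diff hF hw
  have hM0 : ∀ z ∈ ball (0 : Cn n) 1, mob w0 (F z) ≠ 0 := fun z hz =>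
    H82L.mob_ne hw (hF.lt z hz) (hcon z hz)
  obtain ⟨c, k, hk, hM⟩ := exists_exp hMd hM0
  obtain ⟨c', hc'⟩ := IsAlgClosed.exists_pow_nat_eq c (n := 2) two_pos
  set s : Cn n → ℂ := fun z => c' * Complex.exp (k z / 2) with hs
  have hk2 : DifferentiableOn ℂ (fun z => k z / 2) (ball 0 1) := by
    simp only [div_eq_mul_inv]
    exact hk.mul_const (2 : ℂ)⁻¹
  have hsd : DifferentiableOn ℂ s (ball 0 1) := hk2.cexp.const_mul c'
  have hss : ∀ z ∈ ball (0 : Cn n) 1, mob w0 (F z) = s z * s z := by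
    intro z hz
    rw [hM z hz, ← hc']
    simp only [hs]
    have h1 : Complex.exp (k z) = Complex.exp (k z / 2) * Complex.exp (k z / 2) := by
      rw [← Complex.exp_add]
      ring_nf
    rw [h1]
    ring
  have hsn : ∀ z ∈ ball (0 : Cn n) 1, ‖s z‖ ≤ 1 := by
    intro z hz
    have h1 := (H82L.norm_mob_lt hw (hF.lt z hz)).le
    rw [hss z hz, norm_mul] at h1
    nlinarith [norm_nonneg (s z)]
  have hconst : ∀ z ∈ ball (0 : Cn n) 1, s z = s 0 := by
    rcases hI n F w0 s s hF hF0 hex hw hsd hsd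
      (fun z hz => ⟨hsn z hz, hsn z hz, hss z hz⟩) with h | h
    · exact h
    · exact h
  have h0b : (0 : Cn n) ∈ ball (0 : Cn n) 1 := mem_ball_self one_pos
  have hF1 : ∀ z ∈ ball (0 : Cn n) 1, F z = 0 := by
    intro z hz
    rw [← hF0]
    refine mob_inj hw (hF.lt z hz) (hF.lt 0 h0b) ?_
    rw [hss z hz, hss 0 h0b, hconst z hz]
  refine not_extreme_one hn (gf F) (fun z hz => ?_) hex
  unfold gf
  rw [hF1 z hz]
  norm_num

end

end Pool.Agent.Lib.MP_6ff8d9_an.P69
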