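import Pool.Agent.Lib.MP_6ff8d9_an_h69.RowsU
import Pool.Agent.Lib.MP_6ff8d9_an_h20r.Surj

/-!
# MP_6ff8d9 UNIFORMISATION rows, WONTO: a maximal function takes all the values
-/

open Metric Filter Topology
open scoped ComplexConjugate

namespace Pool.Agent.Lib.MP_6ff8d9_an.P69

open Pool.Agent.Lib.MP_6ff8d9_an Pool.Agent.Lib.MP_6ff8d9_an.H11

noncomputable section

variable {n : ℕ}

/-- derivatives of functions with `|f| ≤ |g|` and a common zero -/
lemma norm_fderiv_le_of_norm_le {f g : Cn n → ℂ} {z1 : Cn n} (hf : DifferentiableAt ℂ f z1)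
    (hg : DifferentiableAt ℂ g z1) (hf0 : f z1 = 0) (hg0 : g z1 = 0)
    (hle : ∀ᶠ z in 𝓝 z1, ‖f z‖ ≤ ‖g z‖) (e : Cn n) :
    ‖fderiv ℂ f z1 e‖ ≤ ‖fderiv ℂ g z1 e‖ := by
  have key : ∀ h : Cn n → ℂ, DifferentiableAt ℂ h z1 → h z1 = 0 →
      Tendsto (fun t : ℂ => ‖t⁻¹ * h (z1 + t • e)‖) (𝓝[≠] (0 : ℂ)) (𝓝 ‖fderiv ℂ h z1 e‖) := by
    intro h hh h0
    have h1 : HasDerivAt (fun t : ℂ => z1 + t • e) e 0 := by
      simpa using ((hasDerivAt_id (0 : ℂ)).smul_const e).const_add z1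
    have h2 : HasFDerivAt h (fderiv ℂ h z1) ((fun t : ℂ => z1 + t • e) 0) := by
      simpa using hh.hasFDerivAt
    have h3 := h2.comp_hasDerivAt (0 : ℂ) h1
    rw [hasDerivAt_iff_tendsto_slope] at h3
    refine (h3.norm).congr fun t => ?_
    simp [slope, h0]
  have hc : Tendsto (fun t : ℂ => z1 + t • e) (𝓝[≠] (0 : ℂ)) (𝓝 z1) := by
    have h1 : Tendsto (fun t : ℂ => z1 + t • e) (𝓝 (0 : ℂ)) (𝓝 (z1 + (0 : ℂ) • e)) :=
      (continuous_const.add (continuous_id.smul continuous_const)).tendsto 0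
    simp only [zero_smul, add_zero] at h1
    exact h1.mono_left nhdsWithin_le_nhds
  refine le_of_tendsto_of_tendsto (key f hf hf0) (key g hg hg0) ?_
  filter_upwards [hc.eventually hle] with t ht
  rw [norm_mul, norm_mul]
  exact mul_le_mul_of_nonneg_left ht (norm_nonneg _)

/-- the derivative of `(w - a) / (1 - conj a w)` -/
lemma hasDerivAt_blaschke {a w : ℂ} (h : 1 - conj a * w ≠ 0) :
    HasDerivAt (fun x : ℂ => (x - a) / (1 - conj a * x))
      ((1 - conj a * a) / (1 - conj a * w) ^ 2) w := by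
  have h1 : HasDerivAt (fun x : ℂ => x - a) 1 w := (hasDerivAt_id w).sub_const a
  have h2 : HasDerivAt (fun x : ℂ => 1 - conj a * x) (-(conj a * 1)) w :=
    ((hasDerivAt_id w).const_mul (conj a)).const_sub 1
  have h3 := h1.fun_div h2 h
  have h4 : (1 * (1 - conj a * w) - (w - a) * (-(conj a * 1))) / (1 - conj a * w) ^ 2 =
      (1 - conj a * a) / (1 - conj a * w) ^ 2 := by ring
  rw [← h4]
  exact h3

theorem wonto : WONTO := by
  intro n W e z1 hW hz1 hW0 hmax w0 hw0
  by_contra hcon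
  push Not at hcon
  have hw : ‖w0‖ < 1 := by simpa using hw0
  have hz1b : z1 ∈ ball (0 : Cn n) 1 := hz1.1
  have hw00 : w0 ≠ 0 := fun h => hcon z1 hz1b (by rw [hW0, h])
  have hMd := mob_diff hW hw
  have hM0 : ∀ z ∈ ball (0 : Cn n) 1, mob w0 (W z) ≠ 0 := fun z hz =>
    H82L.mob_ne hw (hW.lt z hz) (hcon z hz)
  obtain ⟨c, k, hk, hM⟩ := exists_exp hMd hM0
  obtain ⟨c', hc'⟩ := IsAlgClosed.exists_pow_nat_eq c (n := 2) two_pos
  set s : Cn n → ℂ := fun z => c' * Complex.exp (k z / 2) with hs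
  have hk2 : DifferentiableOn ℂ (fun z => k z / 2) (ball 0 1) := by
    simp only [div_eq_mul_inv]
    exact hk.mul_const (2 : ℂ)⁻¹
  have hsd : DifferentiableOn ℂ s (ball 0 1) := hk2.cexp.const_mul c'
  have hss : ∀ z ∈ ball (0 : Cn n) 1, mob w0 (W z) = s z * s z := by
    intro z hz
    rw [hM z hz, ← hc']
    simp only [hs]
    have h1 : Complex.exp (k z) = Complex.exp (k z / 2) * Complex.exp (k z / 2) := by
      rw [← Complex.exp_add]
      ring_nf
    rw [h1]
    ring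
  have hs1 : ∀ z ∈ ball (0 : Cn n) 1, ‖s z‖ < 1 := by
    intro z hz
    have h1 := H82L.norm_mob_lt hw (hW.lt z hz)
    rw [hss z hz, norm_mul] at h1
    nlinarith [norm_nonneg (s z)]
  have hs0 : ∀ z ∈ ball (0 : Cn n) 1, s z ≠ 0 := by
    intro z hz h1
    refine hM0 z hz ?_
    rw [hss z hz, h1, mul_zero]
  set a : ℂ := s z1 with ha
  have ha1 : ‖a‖ < 1 := hs1 z1 hz1b
  have ha0 : a ≠ 0 := hs0 z1 hz1b
  have haa : ‖a‖ ^ 2 = ‖w0‖ := by
    have h1 := hss z1 hz1b
    rw [hW0] at h1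
    have h2 : ‖mob w0 0‖ = ‖a * a‖ := by rw [h1]
    rw [norm_mul, mob, norm_mul, norm_div, norm_div] at h2
    simp only [zero_sub, norm_neg, mul_zero, sub_zero, norm_one, div_one] at h2
    have h3 : ‖1 - conj w0‖ = ‖1 - w0‖ := by
      rw [← Complex.norm_conj (1 - w0), map_sub, map_one]
    have h4 : ‖1 - w0‖ ≠ 0 := by
      rw [norm_ne_zero_iff]
      intro h5
      rw [← sub_eq_zero.1 h5, norm_one] at hw
      exact lt_irrefl _ hw
    rw [h3, div_self h4, one_mul] at h2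
    rw [h2]
    ring
  set T : Cn n → ℂ := fun z => (s z - a) / (1 - conj a * s z) with hT
  -- the derivatives
  set C : Cn n → ℂ := fun z => (1 - conj a * a) / (1 - conj a * s z) ^ 2 *
    ((2 * s z)⁻¹ * ((1 - conj w0) / (1 - w0) *
      ((1 - conj w0 * w0) / (1 - conj w0 * W z) ^ 2))) with hC
  have hder : ∀ z ∈ ball (0 : Cn n) 1, HasFDerivAt T (C z • fderiv ℂ W z) z := by
    intro z hz
    have hnb := isOpen_ball.mem_nhds hz
    have hWz : HasFDerivAt W (fderiv ℂ W z) z := (hW.an.differentiableAt hnb).hasFDerivAt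
    have hsz : HasFDerivAt s (fderiv ℂ s z) z := (hsd.differentiableAt hnb).hasFDerivAt
    have hMz : HasFDerivAt (fun z => mob w0 (W z)) (((1 - conj w0) / (1 - w0) *
        ((1 - conj w0 * w0) / (1 - conj w0 * W z) ^ 2)) • fderiv ℂ W z) z := by
      have h1 : HasDerivAt (mob w0) ((1 - conj w0) / (1 - w0) *
          ((1 - conj w0 * w0) / (1 - conj w0 * W z) ^ 2)) (W z) :=
        (hasDerivAt_blaschke (surj_den hw (hW.lt z hz))).const_mul _
      exact h1.comp_hasFDerivAt z hWz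
    have hMz' : HasFDerivAt (fun z => mob w0 (W z)) ((2 * s z) • fderiv ℂ s z) z := by
      have h1 : HasFDerivAt (fun z => s z * s z) (s z • fderiv ℂ s z + s z • fderiv ℂ s z) z :=
        hsz.fun_mul hsz
      have h2 : s z • fderiv ℂ s z + s z • fderiv ℂ s z = (2 * s z) • fderiv ℂ s z := by
        ext v
        simp only [add_apply, smul_apply, smul_eq_mul]
        ring
      rw [h2] at h1
      refine h1.congr_of_eventuallyEq ?_
      filter_upwards [hnb] with y hy using hss y hy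
    have he := hMz'.unique hMz
    have hs2 : (2 * s z) ≠ 0 := mul_ne_zero two_ne_zero (hs0 z hz)
    have hsf : fderiv ℂ s z = ((2 * s z)⁻¹ * ((1 - conj w0) / (1 - w0) *
        ((1 - conj w0 * w0) / (1 - conj w0 * W z) ^ 2))) • fderiv ℂ W z := by
      rw [mul_smul, ← he, smul_smul, inv_mul_cancel₀ hs2, one_smul]
    have h1 : HasDerivAt (fun x : ℂ => (x - a) / (1 - conj a * x))
        ((1 - conj a * a) / (1 - conj a * s z) ^ 2) (s z) :=
      hasDerivAt_blaschke (surj_den ha1 (hs1 z hz))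
    have h2 := h1.comp_hasFDerivAt z hsz
    rw [hsf, smul_smul] at h2
    exact h2
  have hTf : ∀ z ∈ ball (0 : Cn n) 1, fderiv ℂ T z = C z • fderiv ℂ W z := fun z hz =>
    (hder z hz).fderiv
  have hT1 : T z1 = 0 := by
    simp only [hT]
    rw [← ha, sub_self, zero_div]
  have hFam : Fam n W z1 T := by
    refine ⟨fun z hz => (hder z hz).differentiableAt.differentiableWithinAt, ?_, ?_, hT1⟩
    · intro z hz v v'
      rw [hTf z hz]
      simp only [smul_apply, smul_eq_mul]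
      ring
    · intro z hz
      have h1 := (H82L.norm_mob_lt ha1 (hs1 z hz)).le
      have h3 : ‖1 - conj a‖ = ‖1 - a‖ := by
        rw [← Complex.norm_conj (1 - a), map_sub, map_one]
      have h4 : ‖1 - a‖ ≠ 0 := by
        rw [norm_ne_zero_iff]
        intro h5
        rw [← sub_eq_zero.1 h5, norm_one] at ha1
        exact lt_irrefl _ ha1
      rw [mob, norm_mul, norm_div, h3, div_self h4, one_mul] at h1
      exact h1
  have hnb1 := isOpen_ball.mem_nhds hz1b
  have hle := norm_fderiv_le_of_norm_le (hder z1 hz1b).differentiableAt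
    (hW.an.differentiableAt hnb1) hT1 hW0
    (by filter_upwards [hnb1] with y hy using hmax T hFam y hy) e
  rw [hTf z1 hz1b, smul_apply, norm_smul] at hle
  have hWe : 0 < ‖fderiv ℂ W z1 e‖ := norm_pos_iff.2 hz1.2
  have hC1 : ‖C z1‖ ≤ 1 := by
    by_contra h1
    push Not at h1
    nlinarith
  have hreal : ∀ x : ℂ, conj x * x = ((‖x‖ ^ 2 : ℝ) : ℂ) := by
    intro x
    rw [← Complex.normSq_eq_conj_mul_self, Complex.normSq_eq_norm_sq]
  have hnorm : ∀ x : ℂ, ‖x‖ < 1 → ‖1 - conj x * x‖ = 1 - ‖x‖ ^ 2 := by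
    intro x hx
    rw [hreal, ← Complex.ofReal_one, ← Complex.ofReal_sub, Complex.norm_real, Real.norm_eq_abs,
      abs_of_nonneg]
    nlinarith [norm_nonneg x]
  have hCv : ‖C z1‖ = (1 + ‖a‖ ^ 2) / (2 * ‖a‖) := by
    simp only [hC]
    rw [hW0, ← ha, norm_mul, norm_mul, norm_mul, norm_div, norm_div, norm_div, norm_pow,
      norm_pow, norm_inv, norm_mul, hnorm a ha1, hnorm w0 hw]
    have h3 : ‖1 - conj w0‖ = ‖1 - w0‖ := by
      rw [← Complex.norm_conj (1 - w0), map_sub, map_one]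
    have h4 : ‖1 - w0‖ ≠ 0 := by
      rw [norm_ne_zero_iff]
      intro h5
      rw [← sub_eq_zero.1 h5, norm_one] at hw
      exact lt_irrefl _ hw
    rw [h3, div_self h4, ← haa]
    have h6 : (1 - ‖a‖ ^ 2) ≠ 0 := by
      have := norm_nonneg a
      nlinarith
    have h7 : ‖a‖ ≠ 0 := norm_ne_zero_iff.2 ha0
    simp only [mul_zero, sub_zero, norm_one, one_pow, div_one, one_mul, Complex.norm_ofNat]
    field_simp
    ring
  rw [hCv, div_le_one (by positivity)] at hC1
  nlinarith [sq_nonneg (1 - ‖a‖), norm_pos_iff.2 ha0]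

end

end Pool.Agent.Lib.MP_6ff8d9_an.P69
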